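import Pool.Agent.J6H63.Cop.Stm
import Pool.Agent.Helper764.Cop_stat

/-!
# Module CLT
-/

set_option autoImplicit false

open MeasureTheory ProbabilityTheory Filter Topology
open Cop764

namespace Pool.Agent.J6H63.Cop

lemma gauss_pos {a b : ℝ} (hab : a < b) : 0 < gaussianReal 0 1 (Set.Ioo a b) := by
  rw [pos_iff_ne_zero]
  intro h
  have h1 : volume (Set.Ioo a b) = 0 :=
    (gaussianReal_absolutelyContinuous' 0 (one_ne_zero)) h
  rw [Real.volume_Ioo, ENNReal.ofReal_eq_zero] at h1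
  linarith

/-- MODULE CLT -/
theorem clt : CltT := by
  intro B a b hab
  set D : Data := B.dat 1 one_pos with hD
  have hP : D.P = disorder B.ν := rfl
  set X : ℕ → (ℕ → ℝ) → ℝ := fun k ω => ω (k + 1) with hX
  have hmap : ∀ k, Measure.map (X k) D.P = B.ν := fun k => M_absS.J_absS_map D (k + 1)
  have hXm : ∀ k, Measurable (X k) := fun k => measurable_pi_apply _
  have hindep : iIndepFun X D.P :=
    (M_absS.J_absS_iind D).precomp (g := fun k : ℕ => k + 1) (fun x y h => by simpa using h)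
  have hident : ∀ i : ℕ, IdentDistrib (X i) (X 0) D.P D.P := fun i =>
    ⟨(hXm i).aemeasurable, (hXm 0).aemeasurable, by rw [hmap, hmap]⟩
  have hm0 : D.P[X 0] = 0 := by
    have := M_absS.J_absS_int1 D 1 (fun x => x) measurable_id
    rw [show (∫ x, (fun x : ℝ => x) x ∂D.ν) = 0 from B.mean] at this
    exact this
  have hm1 : D.P[X 0 ^ 2] = 1 := by
    have := M_absS.J_absS_int1 D 1 (fun x => x ^ 2) (by fun_prop)
    rw [show (∫ x, (fun x : ℝ => x ^ 2) x ∂D.ν) = 1 from B.var] at this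
    exact this
  have hclt := tendstoInDistribution_inv_sqrt_mul_sum (X := X) (P := D.P) (Y := (id : ℝ → ℝ))
    (P' := gaussianReal 0 1) HasLaw.id hm0 hm1 hindep hident
  have hopen := ProbabilityMeasure.le_liminf_measure_open_of_tendsto hclt.tendsto
    (isOpen_Ioo (a := a) (b := b))
  have hg : 0 < gaussianReal 0 1 (Set.Ioo a b) := gauss_pos hab
  have hgr : 0 < (gaussianReal 0 1).real (Set.Ioo a b) :=
    ENNReal.toReal_pos hg.ne' (measure_ne_top _ _)
  set p : ℝ := (gaussianReal 0 1).real (Set.Ioo a b) / 2 with hp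
  have hp0 : 0 < p := by positivity
  have hlt : ENNReal.ofReal p < liminf (fun n : ℕ => (D.P.map (fun ω => (√(n : ℝ))⁻¹ *
      ∑ k ∈ Finset.range n, X k ω)) (Set.Ioo a b)) atTop := by
    refine lt_of_lt_of_le ?_ hopen
    have h1 : ((gaussianReal 0 1).map id) (Set.Ioo a b) =
        ENNReal.ofReal ((gaussianReal 0 1).real (Set.Ioo a b)) := by
      rw [Measure.map_id, ofReal_measureReal]
    show ENNReal.ofReal p < ((gaussianReal 0 1).map id) (Set.Ioo a b)
    rw [h1]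
    exact (ENNReal.ofReal_lt_ofReal_iff hgr).2 (by linarith)
  obtain ⟨n1, hn1⟩ := eventually_atTop.1 (eventually_lt_of_lt_liminf hlt)
  refine ⟨p, max n1 1, hp0, fun n hn k => ?_⟩
  have hn2 := hn1 n ((le_max_left _ _).trans hn)
  have hn0 : 1 ≤ n := (le_max_right _ _).trans hn
  have hsq : 0 < √(n : ℝ) := Real.sqrt_pos.2 (by exact_mod_cast hn0)
  have hmeas : Measurable fun ω : ℕ → ℝ => (√(n : ℝ))⁻¹ * ∑ k ∈ Finset.range n, X k ω :=
    (Finset.measurable_fun_sum _ fun k _ => hXm k).const_mul _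
  rw [Measure.map_apply hmeas measurableSet_Ioo] at hn2
  -- shift
  have hst := M_stat.J_stat B.ν k
  have hpre : (fun (ω : ℕ → ℝ) (m : ℕ) => ω (m + k)) ⁻¹'
      ((fun ω : ℕ → ℝ => (√(n : ℝ))⁻¹ * ∑ k ∈ Finset.range n, X k ω) ⁻¹' Set.Ioo a b) =
      {ω | a * √(n : ℝ) < ∑ i ∈ Finset.Ioc k (k + n), ω i ∧
        ∑ i ∈ Finset.Ioc k (k + n), ω i < b * √(n : ℝ)} := by
    ext ω
    have h1 : ∑ i ∈ Finset.Ioc k (k + n), ω i = ∑ i ∈ Finset.range n, ω (i + 1 + k) := by
      rw [← Finset.Ico_add_one_add_one_eq_Ioc, Finset.sum_Ico_eq_sum_range]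
      have e1 : k + n + 1 - (k + 1) = n := by omega
      rw [e1]
      refine Finset.sum_congr rfl fun i _ => ?_
      congr 1
      omega
    simp only [Set.mem_preimage, Set.mem_Ioo, hX, Set.mem_ofPred_eq]
    rw [h1, inv_mul_eq_div, lt_div_iff₀ hsq, div_lt_iff₀ hsq]
  have hpm : (disorder B.ν) {ω | a * √(n : ℝ) < ∑ i ∈ Finset.Ioc k (k + n), ω i ∧
        ∑ i ∈ Finset.Ioc k (k + n), ω i < b * √(n : ℝ)} =
      D.P ((fun ω : ℕ → ℝ => (√(n : ℝ))⁻¹ * ∑ k ∈ Finset.range n, X k ω) ⁻¹' Set.Ioo a b) := by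
    rw [← hpre]
    exact hst.measure_preimage (hmeas measurableSet_Ioo).nullMeasurableSet
  rw [measureReal_def, hpm]
  exact (ENNReal.ofReal_le_iff_le_toReal (measure_ne_top _ _)).1 hn2.le

end Pool.Agent.J6H63.Cop
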