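import Pool.Agent.J6H63.Cop.Stm

/-!
# Module GROW
-/

set_option autoImplicit false

open MeasureTheory ProbabilityTheory Filter Topology
open Cop764

namespace Pool.Agent.J6H63.Cop

/-- MODULE GROW -/
theorem grow : GrowT := by
  classical
  intro W s len c hlen hc hsum u hu0 hu hrec C n0
  by_contra hcon
  push Not at hcon
  -- choose x
  have hcont : Tendsto (fun x : ℝ => ∑ w ∈ s, c w * x ^ len w) (𝓝 1)
      (𝓝 (∑ w ∈ s, c w * (1 : ℝ) ^ len w)) := by
    refine Continuous.tendsto ?_ 1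
    fun_prop
  simp only [one_pow, mul_one] at hcont
  have hev : ∀ᶠ x : ℝ in 𝓝[<] 1, 1 < ∑ w ∈ s, c w * x ^ len w :=
    (hcont.eventually (lt_mem_nhds hsum)).filter_mono nhdsWithin_le_nhds
  have hev2 : ∀ᶠ x : ℝ in 𝓝[<] 1, x ∈ Set.Ioo (0 : ℝ) 1 := Ioo_mem_nhdsLT one_pos
  obtain ⟨x, hx1, hx0, hx2⟩ := (hev.and hev2).exists
  set a : ℝ := ∑ w ∈ s, c w * x ^ len w with ha
  set f : ℕ → ℝ := fun N => u N * x ^ N with hf
  have hf0 : ∀ N, 0 ≤ f N := fun N => mul_nonneg (hu N) (pow_nonneg hx0.le N)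
  have hfs : Summable f := by
    have h1 : Summable fun N : ℕ => (N : ℝ) ^ 2 * x ^ N :=
      summable_pow_mul_geometric_of_norm_lt_one 2 (by rw [Real.norm_of_nonneg hx0.le]; exact hx2)
    rw [← summable_nat_add_iff n0]
    refine Summable.of_nonneg_of_le (fun N => hf0 _) (fun N => ?_)
      (((summable_nat_add_iff n0).2 h1).mul_left C)
    show u (N + n0) * x ^ (N + n0) ≤ C * (((N + n0 : ℕ) : ℝ) ^ 2 * x ^ (N + n0))
    rw [← mul_assoc]
    exact mul_le_mul_of_nonneg_right (hcon _ (Nat.le_add_left _ _)) (pow_nonneg hx0.le _)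
  set L : ℕ := s.sup len with hL
  have hLw : ∀ w ∈ s, len w ≤ L := fun w hw => Finset.le_sup hw
  have key : ∀ R : ℕ, 1 + a * ∑ m ∈ Finset.range (R + 1), f m ≤
      ∑ m ∈ Finset.range (R + 1 + L), f m := by
    intro R
    have h1 : Finset.range (R + 1 + L) = insert 0 (Finset.Ico 1 (R + 1 + L)) := by
      ext m
      simp only [Finset.mem_range, Finset.mem_insert, Finset.mem_Ico]
      omega
    rw [h1, Finset.sum_insert (by simp)]
    have h2 : f 0 = 1 := by simp [hf, hu0]
    have h3 : ∑ N ∈ Finset.Ico 1 (R + 1 + L), ∑ w ∈ s with len w ≤ N,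
        c w * x ^ len w * f (N - len w) ≤ ∑ N ∈ Finset.Ico 1 (R + 1 + L), f N := by
      refine Finset.sum_le_sum fun N hN => ?_
      have h4 := hrec N (Finset.mem_Ico.1 hN).1
      have h5 := mul_le_mul_of_nonneg_right h4 (pow_nonneg hx0.le N)
      refine le_trans (le_of_eq ?_) h5
      rw [Finset.sum_mul]
      refine Finset.sum_congr rfl fun w hw => ?_
      have h6 : len w ≤ N := (Finset.mem_filter.1 hw).2
      have h7 : x ^ N = x ^ len w * x ^ (N - len w) := by
        rw [← pow_add]; congr 1; omega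
      rw [h7]
      simp only [hf]
      ring
    have h8 : a * ∑ m ∈ Finset.range (R + 1), f m ≤
        ∑ N ∈ Finset.Ico 1 (R + 1 + L), ∑ w ∈ s with len w ≤ N,
        c w * x ^ len w * f (N - len w) := by
      simp_rw [Finset.sum_filter]
      rw [Finset.sum_comm, ha, Finset.sum_mul]
      refine Finset.sum_le_sum fun w hw => ?_
      rw [← Finset.sum_filter, ← Finset.mul_sum]
      have h9 : 0 ≤ c w * x ^ len w := mul_nonneg (hc w hw) (pow_nonneg hx0.le _)
      refine mul_le_mul_of_nonneg_left ?_ h9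
      have h10 : ∑ m ∈ Finset.range (R + 1), f m =
          ∑ N ∈ (Finset.range (R + 1)).image (fun m => m + len w), f (N - len w) := by
        rw [Finset.sum_image (fun _ _ _ _ h => by simpa using h)]
        simp
      rw [h10]
      refine Finset.sum_le_sum_of_subset_of_nonneg ?_ fun N _ _ => hf0 _
      intro N hN
      obtain ⟨m, hm, rfl⟩ := Finset.mem_image.1 hN
      have h11 := Finset.mem_range.1 hm
      have h12 := hlen w hw
      have h13 := hLw w hw
      refine Finset.mem_filter.2 ⟨Finset.mem_Ico.2 ⟨by omega, by omega⟩, by omega⟩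
    linarith
  have ht1 : Tendsto (fun R : ℕ => ∑ m ∈ Finset.range (R + 1), f m) atTop (𝓝 (∑' m, f m)) :=
    hfs.hasSum.tendsto_sum_nat.comp (tendsto_add_atTop_nat 1)
  have ht2 : Tendsto (fun R : ℕ => ∑ m ∈ Finset.range (R + 1 + L), f m) atTop
      (𝓝 (∑' m, f m)) := by
    have := hfs.hasSum.tendsto_sum_nat.comp (tendsto_add_atTop_nat (1 + L))
    refine this.congr fun R => ?_
    simp [add_assoc]
  have hlim := le_of_tendsto_of_tendsto' ((ht1.const_mul a).const_add 1) ht2 key
  have hU : 0 ≤ ∑' m, f m := tsum_nonneg hf0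
  nlinarith

end Pool.Agent.J6H63.Cop
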