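import Pool.Agent.J6H63.Cop.Fin

/-!
# Module SYS
-/

set_option autoImplicit false

open MeasureTheory ProbabilityTheory Filter Topology
open Cop764

namespace Pool.Agent.J6H63.Cop

lemma phi_nonneg (w : ℕ → ℝ) (a b : ℕ) : 0 ≤ phi w a b := by
  unfold phi
  have := Real.exp_pos (S w a b)
  positivity

lemma Bw_nonneg (w : ℕ → ℝ) {M : ℕ} (n : Fin M → ℕ) : 0 ≤ Bw w n :=
  Finset.prod_nonneg fun _ _ => phi_nonneg _ _ _

lemma Bs_nonneg (w : ℕ → ℝ) {M : ℕ} (n : Fin M → ℕ) : 0 ≤ Bs w n :=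
  mul_nonneg (by positivity) (Finset.sum_nonneg fun _ _ => Bw_nonneg _ _)

lemma st_add_le {M : ℕ} (n : Fin M → ℕ) (i : Fin M) : st n i + n i ≤ ∑ j, n j := by
  classical
  unfold st
  have h1 : i ∉ Finset.Iio i := by simp
  have h2 : (∑ j ∈ Finset.Iio i, n j) + n i = ∑ j ∈ insert i (Finset.Iio i), n j := by
    rw [Finset.sum_insert h1, add_comm]
  rw [h2]
  exact Finset.sum_le_sum_of_subset (Finset.subset_univ _)

lemma S_congr (D : Data) (h : ℝ) {ω ω' : ℕ → ℝ} {a b L : ℕ} (hb : b ≤ L)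
    (hω : ∀ n ∈ Finset.Ioc 0 L, ω n = ω' n) : S (D.w h ω) a b = S (D.w h ω') a b := by
  unfold S
  refine Finset.sum_congr rfl fun n hn => ?_
  rw [Finset.mem_Ioc] at hn
  unfold Data.w
  rw [hω n (Finset.mem_Ioc.2 ⟨by omega, hn.2.trans hb⟩)]

lemma phi_congr (D : Data) (h : ℝ) {ω ω' : ℕ → ℝ} {a b L : ℕ} (hb : b ≤ L)
    (hω : ∀ n ∈ Finset.Ioc 0 L, ω n = ω' n) : phi (D.w h ω) a b = phi (D.w h ω') a b := by
  unfold phi
  rw [S_congr D h hb hω]

lemma sum_comp_perm {M : ℕ} (n : Fin M → ℕ) (σ : Equiv.Perm (Fin M)) :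
    ∑ j, (n ∘ σ) j = ∑ j, n j := Equiv.sum_comp σ n

lemma Bw_congr (D : Data) (h : ℝ) {ω ω' : ℕ → ℝ} {M L : ℕ} (n : Fin M → ℕ) (hL : ∑ j, n j ≤ L)
    (hω : ∀ n ∈ Finset.Ioc 0 L, ω n = ω' n) : Bw (D.w h ω) n = Bw (D.w h ω') n := by
  unfold Bw
  exact Finset.prod_congr rfl fun i _ => phi_congr D h ((st_add_le n i).trans hL) hω

lemma Bs_congr (D : Data) (h : ℝ) {ω ω' : ℕ → ℝ} {M L : ℕ} (n : Fin M → ℕ) (hL : ∑ j, n j ≤ L)
    (hω : ∀ n ∈ Finset.Ioc 0 L, ω n = ω' n) : Bs (D.w h ω) n = Bs (D.w h ω') n := by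
  unfold Bs
  congr 1
  refine Finset.sum_congr rfl fun σ _ => ?_
  exact Bw_congr D h (n ∘ σ) (by rw [sum_comp_perm]; exact hL) hω

lemma measurable_Bw (D : Data) (h : ℝ) {M : ℕ} (n : Fin M → ℕ) :
    Measurable fun ω : ℕ → ℝ => Bw (D.w h ω) n := by
  unfold Bw
  exact Finset.measurable_fun_prod _ fun i _ => M_meas.J_meas_phi D h _ _

lemma measurable_Bs (D : Data) (h : ℝ) {M : ℕ} (n : Fin M → ℕ) :
    Measurable fun ω : ℕ → ℝ => Bs (D.w h ω) n := by
  unfold Bs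
  exact (Finset.measurable_fun_sum _ fun σ _ => measurable_Bw D h _).const_mul _

lemma gamD_pos (D : Data) : 0 < gam D.α := by
  unfold gam
  have := D.hα
  positivity

lemma gamD_le_one (D : Data) : gam D.α ≤ 1 := by
  unfold gam
  have := D.hα
  exact inv_le_one_of_one_le₀ (by linarith)

lemma sum_rpow_le {ι : Type*} (s : Finset ι) (f : ι → ℝ) (hf : ∀ i ∈ s, 0 ≤ f i) {g : ℝ}
    (hg0 : 0 < g) (hg1 : g ≤ 1) : (∑ i ∈ s, f i) ^ g ≤ ∑ i ∈ s, f i ^ g := by
  classical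
  induction s using Finset.induction_on with
  | empty => simp [Real.zero_rpow hg0.ne']
  | insert a s ha ih =>
    rw [Finset.sum_insert ha, Finset.sum_insert ha]
    have h1 : 0 ≤ f a := hf a (Finset.mem_insert_self _ _)
    have h2 : 0 ≤ ∑ i ∈ s, f i := Finset.sum_nonneg fun i hi => hf i (Finset.mem_insert_of_mem hi)
    have h3 := Real.rpow_add_le_add_rpow h1 h2 hg0.le hg1
    have h4 := ih fun i hi => hf i (Finset.mem_insert_of_mem hi)
    linarith

lemma integrable_Bs (hprod : ProdT) (D : Data) (h : ℝ) {M : ℕ} (n : Fin M → ℕ) :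
    Integrable (fun ω => (Bs (D.w h ω) n) ^ gam D.α) D.P := by
  have h2 : ∀ σ : Equiv.Perm (Fin M), Integrable (fun ω => (Bw (D.w h ω) (n ∘ σ)) ^ gam D.α) D.P :=
    fun σ => (hprod D h M (n ∘ σ)).1
  have h3 : Integrable (fun ω => ∑ σ : Equiv.Perm (Fin M), (Bw (D.w h ω) (n ∘ σ)) ^ gam D.α) D.P :=
    integrable_finsetSum Finset.univ fun σ _ => h2 σ
  have h1 : Integrable (fun ω => ((M.factorial : ℝ)⁻¹) ^ gam D.α *
      ∑ σ : Equiv.Perm (Fin M), (Bw (D.w h ω) (n ∘ σ)) ^ gam D.α) D.P :=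
    h3.const_mul _
  refine Integrable.mono' h1 ((measurable_Bs D h n).pow_const _).aestronglyMeasurable
    (Eventually.of_forall fun ω => ?_)
  rw [Real.norm_of_nonneg (Real.rpow_nonneg (Bs_nonneg _ _) _)]
  unfold Bs
  rw [Real.mul_rpow (by positivity) (Finset.sum_nonneg fun _ _ => Bw_nonneg _ _)]
  refine mul_le_mul_of_nonneg_left ?_ (Real.rpow_nonneg (by positivity) _)
  exact sum_rpow_le _ _ (fun _ _ => Bw_nonneg _ _) (gamD_pos D) (gamD_le_one D)

lemma DK_nonneg (D : Data) (n : ℕ) : 0 ≤ D.K n := ENNReal.toReal_nonneg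

/-- MODULE SYS -/
theorem sys : SysT := by
  classical
  intro hfrac hgrow hcrit hword hprod D h hh M R hM hsum
  obtain ⟨c0, n0, hK⟩ := M_K.J_K D
  let X : WSys D h :=
    { W := Fin M → ℕ
      s := wds M R
      len := fun n => ∑ i, n i
      wt := fun n => ∏ i, D.K (n i)
      B := fun n ω => Bs (D.w h ω) n
      one_le := by
        intro n hn
        have h1 : ∀ i, 1 ≤ n i := fun i => (Finset.mem_Icc.1 (Fintype.mem_piFinset.1 hn i)).1
        have h2 : n ⟨0, hM⟩ ≤ ∑ i, n i :=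
          Finset.single_le_sum (f := n) (fun _ _ => Nat.zero_le _) (Finset.mem_univ _)
        exact (h1 _).trans h2
      wt_nonneg := fun n _ => Finset.prod_nonneg fun i _ => DK_nonneg D _
      wt_sum := by
        rw [sum_words]
        exact pow_le_one₀ (Finset.sum_nonneg fun m _ => DK_nonneg D m) (hK.sum_le R)
      meas := fun n _ => measurable_Bs D h n
      nonneg := fun n _ ω => Bs_nonneg _ _
      loc := fun n _ ω ω' hω => Bs_congr D h n le_rfl hω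
      int := fun n _ => integrable_Bs hprod D h n
      dom := fun ω N _ => hword D.K (D.w h ω) (DK_nonneg D) M R N }
  exact hcrit hfrac hgrow D h hh X hsum

end Pool.Agent.J6H63.Cop
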