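import Pool.Agent.J6H63.Cop.Top
import Pool.Agent.J6H63.Cop.Sys
import Pool.Agent.J6H63.Cop.Grow
import Pool.Agent.J6H63.Cop.Clt
import Pool.Agent.J6H75.Cop.Frac
import Pool.Agent.J6H75.Cop.Short
import Pool.Agent.J6H13.Cop.Crit
import Pool.Agent.J6H13.Cop.Prod
import Pool.Agent.J6H17.Cop.Word
import Pool.Agent.J6H17.Cop.KSums
import Pool.Agent.J6H22.Cop.Good
import Pool.Agent.J6H40.Cop.Ev
import Pool.Agent.J6H52.Cop.Plain
import Pool.Agent.J6H9.Cop.Gain
import Pool.Agent.J6H58.Cop.Stab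

/-!
# Assembly
-/

set_option autoImplicit false

open MeasureTheory ProbabilityTheory Filter Topology
open Cop764

namespace Pool.Agent.J6H63.Cop

theorem impC : ImpC :=
  imp (sys Pool.Agent.J6H75.Cop.frac grow Pool.Agent.J6H13.Cop.crit t_word
      Pool.Agent.J6H13.Cop.prod)
    t_kmin t_klow Pool.Agent.J6H22.Cop.good clt Pool.Agent.J6H75.Cop.short
    Pool.Agent.J6H40.Cop.ev conT Pool.Agent.J6H13.Cop.prod
    gainT

theorem finET : FinalE :=
  finE impC (Pool.Agent.J6H52.Cop.plain t_kmin t_klow clt) (Pool.Agent.J6H58.Cop.stab t_kmin)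

end Pool.Agent.J6H63.Cop
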