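import Pool.Agent.J6H63.Cop.Imp

/-!
# Module FINAL
-/

set_option autoImplicit false

open MeasureTheory ProbabilityTheory Filter Topology
open Cop764

namespace Pool.Agent.J6H63.Cop

/-- conclusion of `ImpT` -/
def ImpC : Prop := ∀ B : Base, ∃ η l0 : ℝ, 0 < η ∧ 0 < l0 ∧
  ∀ (lam : ℝ) (hl : 0 < lam), lam < l0 → ∀ h : ℝ, 0 ≤ h → h ≤ 2 * lam →
    (∃ R0 : ℕ, ∀ R, R0 ≤ R → 1 - η * lam ^ (2 * B.α) ≤
      ∑ m ∈ Finset.Icc 1 R, B.K m * ph (B.dat lam hl) h m) → 0 < (B.dat lam hl).f h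

/-- conclusion of `PlainT` -/
def PlainC : Prop := ∀ B : Base, ∃ δ c l0 : ℝ, 0 < δ ∧ 0 < c ∧ 0 < l0 ∧
  ∀ (lam : ℝ) (hl : 0 < lam), lam < l0 → ∃ R0 : ℕ, ∀ R, R0 ≤ R → 1 + c * lam ^ (2 * B.α) ≤
    ∑ m ∈ Finset.Icc 1 R, B.K m * ph (B.dat lam hl) ((gam B.α + δ) * lam) m

/-- conclusion of `StabT` -/
def StabC : Prop := ∀ (B : Base) (δ η : ℝ), 0 < δ → 0 < η → ∃ δ' l0 : ℝ, 0 < δ' ∧ 0 < l0 ∧
  ∀ (lam : ℝ) (hl : 0 < lam), lam < l0 → ∀ h : ℝ, (gam B.α + δ) * lam ≤ h → ∀ R : ℕ,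
    ∑ m ∈ Finset.Icc 1 R, B.K m * ph (B.dat lam hl) h m - η * lam ^ (2 * B.α) ≤
      ∑ m ∈ Finset.Icc 1 R, B.K m * ph (B.dat lam hl) (h + δ' * lam) m

lemma gam_pos (B : Base) : 0 < gam B.α := by
  unfold gam
  have := B.hα
  positivity

lemma gam_lt_one (B : Base) : gam B.α < 1 := by
  unfold gam
  have := B.hα
  exact inv_lt_one_of_one_lt₀ (by linarith)

lemma ph_nonneg (D : Data) (h : ℝ) (m : ℕ) : 0 ≤ ph D h m := by
  refine integral_nonneg fun ω => ?_
  refine Real.rpow_nonneg ?_ _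
  unfold phi
  have := Real.exp_pos (S (D.w h ω) 0 m)
  positivity

/-- `ph` is nonincreasing in `h` -/
def MonoC : Prop := ∀ (D : Data) (h h' : ℝ) (m : ℕ), h ≤ h' → ph D h' m ≤ ph D h m

lemma integrable_phi_rpow (D : Data) (h : ℝ) (m : ℕ) :
    Integrable (fun ω => (phi (D.w h ω) 0 m) ^ gam D.α) D.P := by
  obtain ⟨C1, -, hF⟩ := M_EF.J_EF D
  have hmeas : Measurable fun ω : ℕ → ℝ => phi (D.w h ω) 0 m := M_meas.J_meas_phi D h 0 m
  have hp : ∀ ω : ℕ → ℝ, 0 ≤ phi (D.w h ω) 0 m := fun ω => by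
    unfold phi
    have := Real.exp_pos (S (D.w h ω) 0 m)
    positivity
  have hg0 : 0 ≤ gam D.α := by
    unfold gam
    have := D.hα
    positivity
  have hg1 : gam D.α ≤ 1 := by
    unfold gam
    have := D.hα
    exact inv_le_one_of_one_le₀ (by linarith)
  -- phi itself
  have hint : Integrable (fun ω : ℕ → ℝ => phi (D.w h ω) 0 m) D.P := by
    have h1 : ∀ ω : ℕ → ℝ, phi (D.w h ω) 0 m =
        (1 + Real.exp (-2 * D.lam * (∑ i ∈ Finset.Ioc 0 m, ω i)) * Real.exp (-2 * D.lam * h * m)) /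
          2 := by
      intro ω
      unfold phi S Data.w
      rw [← Real.exp_add]
      congr 3
      rw [← Finset.mul_sum, Finset.sum_add_distrib]
      simp
      ring
    simp_rw [h1]
    refine ((integrable_const _).add (Integrable.mul_const ?_ _)).div_const _
    have h2 := M_absS.J_absS_expT D m (-2 * D.lam)
    convert h2 using 3
  refine Integrable.mono' ((integrable_const (1 : ℝ)).add hint)
    (hmeas.pow_const _).aestronglyMeasurable (Eventually.of_forall fun ω => ?_)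
  rw [Real.norm_of_nonneg (Real.rpow_nonneg (hp ω) _)]
  show _ ≤ 1 + phi (D.w h ω) 0 m
  rcases le_total (phi (D.w h ω) 0 m) 1 with h1 | h1
  · exact (Real.rpow_le_one (hp ω) h1 hg0).trans (by linarith [hp ω])
  · calc (phi (D.w h ω) 0 m) ^ gam D.α ≤ (phi (D.w h ω) 0 m) ^ (1 : ℝ) :=
          Real.rpow_le_rpow_of_exponent_le h1 hg1
      _ = phi (D.w h ω) 0 m := Real.rpow_one _
      _ ≤ _ := by linarith

lemma mono : MonoC := by
  intro D h h' m hh
  refine integral_mono (integrable_phi_rpow D h' m) (integrable_phi_rpow D h m) fun ω => ?_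
  have hg0 : 0 ≤ gam D.α := by
    unfold gam
    have := D.hα
    positivity
  refine Real.rpow_le_rpow ?_ ?_ hg0
  · unfold phi
    have := Real.exp_pos (S (D.w h' ω) 0 m)
    positivity
  · unfold phi
    have h1 : S (D.w h' ω) 0 m ≤ S (D.w h ω) 0 m := by
      unfold S Data.w
      refine Finset.sum_le_sum fun i _ => ?_
      have := D.hlam
      nlinarith
    have := Real.exp_le_exp.2 h1
    linarith

/-- FINAL -/
theorem fin (himp : ImpC) (hplain : PlainC) (hstab : StabC) : FinalT := by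
  intro B
  obtain ⟨η, l1, hη, hl1, himp⟩ := himp B
  obtain ⟨δ0, c, l2, hδ0, hc, hl2, hplain⟩ := hplain B
  set δ : ℝ := min δ0 (1 / 4) with hδ
  have hδp : 0 < δ := by positivity
  have hδ1 : δ ≤ δ0 := min_le_left _ _
  have hδ2 : δ ≤ 1 / 4 := min_le_right _ _
  obtain ⟨δ', l3, hδ', hl3, hstab⟩ := hstab B (δ / 2) (η / 2) (by positivity) (by positivity)
  have hg0 := gam_pos B
  have hg1 := gam_lt_one B
  refine ⟨min (δ / 2) (min δ' (1 / 4)), min l1 (min l2 l3), by positivity, by positivity, ?_⟩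
  intro lam hl hlt hc0 hhc
  have ht1 : lam < l1 := hlt.trans_le (min_le_left _ _)
  have ht2 : lam < l2 := hlt.trans_le ((min_le_right _ _).trans (min_le_left _ _))
  have ht3 : lam < l3 := hlt.trans_le ((min_le_right _ _).trans (min_le_right _ _))
  have hlp : 0 < lam ^ (2 * B.α) := Real.rpow_pos_of_pos hl _
  have hd1 : min (δ / 2) (min δ' (1 / 4)) ≤ δ / 2 := min_le_left _ _
  have hd2 : min (δ / 2) (min δ' (1 / 4)) ≤ δ' := (min_le_right _ _).trans (min_le_left _ _)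
  have hd3 : min (δ / 2) (min δ' (1 / 4)) ≤ 1 / 4 :=
    (min_le_right _ _).trans (min_le_right _ _)
  set dd : ℝ := min (δ / 2) (min δ' (1 / 4)) with hdd
  have hdd0 : 0 < dd := by positivity
  -- first part
  have hA : (gam B.α + δ) * lam < hc0 := by
    refine (hhc _ (by positivity)).1 ?_
    refine himp lam hl ht1 _ (by positivity) (by nlinarith) ?_
    obtain ⟨R0, hR0⟩ := hplain lam hl ht2
    refine ⟨R0, fun R hR => ?_⟩
    have h1 := hR0 R hR
    have h2 : ∑ m ∈ Finset.Icc 1 R, B.K m * ph (B.dat lam hl) ((gam B.α + δ0) * lam) m ≤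
        ∑ m ∈ Finset.Icc 1 R, B.K m * ph (B.dat lam hl) ((gam B.α + δ) * lam) m :=
      Finset.sum_le_sum fun m _ => mul_le_mul_of_nonneg_left
        (mono _ _ _ m (by nlinarith)) (B.K_nonneg m)
    have h3 : 0 < c * lam ^ (2 * B.α) := by positivity
    have h4 : 0 < η * lam ^ (2 * B.α) := by positivity
    linarith
  refine ⟨by nlinarith, fun h hh0 hh2 hsum => ?_⟩
  by_cases hcase : (gam B.α + δ / 2) * lam ≤ h
  · refine (hhc _ (by positivity)).1 ?_
    refine himp lam hl ht1 _ (by positivity) (by nlinarith) ?_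
    have hsm : Summable fun m : ℕ => B.K m * ph (B.dat lam hl) h m := by
      by_contra hns
      rw [tsum_eq_zero_of_not_summable hns] at hsum
      norm_num at hsum
    have hten : Tendsto (fun R : ℕ => ∑ m ∈ Finset.range (R + 1), B.K m * ph (B.dat lam hl) h m)
        atTop (𝓝 (∑' m : ℕ, B.K m * ph (B.dat lam hl) h m)) :=
      hsm.hasSum.tendsto_sum_nat.comp (tendsto_add_atTop_nat 1)
    have h0 : B.K 0 = 0 := by
      unfold Base.K
      rw [B.κ0]
      rfl
    have hre : ∀ R : ℕ, ∑ m ∈ Finset.range (R + 1), B.K m * ph (B.dat lam hl) h m =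
        ∑ m ∈ Finset.Icc 1 R, B.K m * ph (B.dat lam hl) h m := by
      intro R
      rw [Finset.range_eq_Ico, Finset.sum_eq_sum_Ico_succ_bot (Nat.succ_pos R), h0, zero_mul,
        zero_add]
      rfl
    simp_rw [hre] at hten
    have hev : ∀ᶠ R : ℕ in atTop, 1 - η / 2 * lam ^ (2 * B.α) <
        ∑ m ∈ Finset.Icc 1 R, B.K m * ph (B.dat lam hl) h m := by
      refine hten.eventually (lt_mem_nhds ?_)
      have : 0 < η / 2 * lam ^ (2 * B.α) := by positivity
      linarith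
    obtain ⟨R0, hR0⟩ := eventually_atTop.1 hev
    refine ⟨R0, fun R hR => ?_⟩
    have h1 := hR0 R hR
    have h2 := hstab lam hl ht3 h hcase R
    have h3 : ∑ m ∈ Finset.Icc 1 R, B.K m * ph (B.dat lam hl) (h + δ' * lam) m ≤
        ∑ m ∈ Finset.Icc 1 R, B.K m * ph (B.dat lam hl) (h + dd * lam) m :=
      Finset.sum_le_sum fun m _ => mul_le_mul_of_nonneg_left
        (mono _ _ _ m (by nlinarith)) (B.K_nonneg m)
    linarith
  · push Not at hcase
    nlinarith

/-- FINAL, the sum of the product criterion may be infinite -/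
def FinalE : Prop := ∀ B : Base, ∃ δ l0 : ℝ, 0 < δ ∧ 0 < l0 ∧
  ∀ (lam : ℝ) (hl : 0 < lam), lam < l0 → ∀ hc : ℝ,
    (∀ h, 0 ≤ h → (0 < (B.dat lam hl).f h ↔ h < hc)) →
    (gam B.α + δ) * lam < hc ∧
    ∀ h : ℝ, 0 ≤ h → h ≤ 3 / 2 * lam →
      1 ≤ ∑' m : ℕ, ENNReal.ofReal (B.K m * ph (B.dat lam hl) h m) → h + δ * lam < hc

lemma partial_of_ennreal {f : ℕ → ℝ} (hf : ∀ m, 0 ≤ f m) (hf0 : f 0 = 0)
    (h : 1 ≤ ∑' m : ℕ, ENNReal.ofReal (f m)) {ε : ℝ} (hε : 0 < ε) :
    ∃ R0 : ℕ, ∀ R, R0 ≤ R → 1 - ε < ∑ m ∈ Finset.Icc 1 R, f m := by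
  have hlt : ENNReal.ofReal (1 - ε) < ∑' m : ℕ, ENNReal.ofReal (f m) := by
    refine lt_of_lt_of_le ?_ h
    rw [← ENNReal.ofReal_one]
    exact (ENNReal.ofReal_lt_ofReal_iff one_pos).2 (by linarith)
  have hev := (ENNReal.summable.hasSum.tendsto_sum_nat.comp
    (tendsto_add_atTop_nat 1)).eventually (lt_mem_nhds hlt)
  obtain ⟨R0, hR0⟩ := eventually_atTop.1 hev
  refine ⟨R0, fun R hR => ?_⟩
  have h1 : ENNReal.ofReal (1 - ε) < ∑ m ∈ Finset.range (R + 1), ENNReal.ofReal (f m) := hR0 R hR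
  rw [← ENNReal.ofReal_sum_of_nonneg fun m _ => hf m] at h1
  have h2 : ∑ m ∈ Finset.range (R + 1), f m = ∑ m ∈ Finset.Icc 1 R, f m := by
    rw [Finset.range_eq_Ico, Finset.sum_eq_sum_Ico_succ_bot (Nat.succ_pos R), hf0, zero_add]
    rfl
  rw [h2] at h1
  exact lt_of_not_ge fun hge => absurd (ENNReal.ofReal_le_ofReal hge) (not_le.2 h1)

/-- FINAL, the sum of the product criterion may be infinite -/
theorem finE (himp : ImpC) (hplain : PlainC) (hstab : StabC) : FinalE := by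
  intro B
  obtain ⟨η, l1, hη, hl1, himp⟩ := himp B
  obtain ⟨δ0, c, l2, hδ0, hc, hl2, hplain⟩ := hplain B
  set δ : ℝ := min δ0 (1 / 4) with hδ
  have hδp : 0 < δ := by positivity
  have hδ1 : δ ≤ δ0 := min_le_left _ _
  have hδ2 : δ ≤ 1 / 4 := min_le_right _ _
  obtain ⟨δ', l3, hδ', hl3, hstab⟩ := hstab B (δ / 2) (η / 2) (by positivity) (by positivity)
  have hg0 := gam_pos B
  have hg1 := gam_lt_one B
  refine ⟨min (δ / 2) (min δ' (1 / 4)), min l1 (min l2 l3), by positivity, by positivity, ?_⟩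
  intro lam hl hlt hc0 hhc
  have ht1 : lam < l1 := hlt.trans_le (min_le_left _ _)
  have ht2 : lam < l2 := hlt.trans_le ((min_le_right _ _).trans (min_le_left _ _))
  have ht3 : lam < l3 := hlt.trans_le ((min_le_right _ _).trans (min_le_right _ _))
  have hlp : 0 < lam ^ (2 * B.α) := Real.rpow_pos_of_pos hl _
  have hd1 : min (δ / 2) (min δ' (1 / 4)) ≤ δ / 2 := min_le_left _ _
  have hd2 : min (δ / 2) (min δ' (1 / 4)) ≤ δ' := (min_le_right _ _).trans (min_le_left _ _)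
  have hd3 : min (δ / 2) (min δ' (1 / 4)) ≤ 1 / 4 :=
    (min_le_right _ _).trans (min_le_right _ _)
  set dd : ℝ := min (δ / 2) (min δ' (1 / 4)) with hdd
  have hdd0 : 0 < dd := by positivity
  -- first part
  have hA : (gam B.α + δ) * lam < hc0 := by
    refine (hhc _ (by positivity)).1 ?_
    refine himp lam hl ht1 _ (by positivity) (by nlinarith) ?_
    obtain ⟨R0, hR0⟩ := hplain lam hl ht2
    refine ⟨R0, fun R hR => ?_⟩
    have h1 := hR0 R hR
    have h2 : ∑ m ∈ Finset.Icc 1 R, B.K m * ph (B.dat lam hl) ((gam B.α + δ0) * lam) m ≤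
        ∑ m ∈ Finset.Icc 1 R, B.K m * ph (B.dat lam hl) ((gam B.α + δ) * lam) m :=
      Finset.sum_le_sum fun m _ => mul_le_mul_of_nonneg_left
        (mono _ _ _ m (by nlinarith)) (B.K_nonneg m)
    have h3 : 0 < c * lam ^ (2 * B.α) := by positivity
    have h4 : 0 < η * lam ^ (2 * B.α) := by positivity
    linarith
  refine ⟨by nlinarith, fun h hh0 hh2 hsum => ?_⟩
  by_cases hcase : (gam B.α + δ / 2) * lam ≤ h
  · refine (hhc _ (by positivity)).1 ?_
    refine himp lam hl ht1 _ (by positivity) (by nlinarith) ?_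
    have h0 : B.K 0 = 0 := by
      unfold Base.K
      rw [B.κ0]
      rfl
    obtain ⟨R0, hR0⟩ := partial_of_ennreal
      (f := fun m => B.K m * ph (B.dat lam hl) h m)
      (fun m => mul_nonneg (B.K_nonneg m) (ph_nonneg _ _ _)) (by simp [h0]) hsum
      (show 0 < η / 2 * lam ^ (2 * B.α) by positivity)
    refine ⟨R0, fun R hR => ?_⟩
    have h1 := hR0 R hR
    have h2 := hstab lam hl ht3 h hcase R
    have h3 : ∑ m ∈ Finset.Icc 1 R, B.K m * ph (B.dat lam hl) (h + δ' * lam) m ≤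
        ∑ m ∈ Finset.Icc 1 R, B.K m * ph (B.dat lam hl) (h + dd * lam) m :=
      Finset.sum_le_sum fun m _ => mul_le_mul_of_nonneg_left
        (mono _ _ _ m (by nlinarith)) (B.K_nonneg m)
    linarith
  · push Not at hcase
    nlinarith

end Pool.Agent.J6H63.Cop
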