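import Pool.Agent.J6H63.Cop.Stm

/-!
# Module IMP
-/

set_option autoImplicit false

open MeasureTheory ProbabilityTheory Filter Topology
open Cop764

namespace Pool.Agent.J6H63.Cop

lemma Base.K_nonneg (B : Base) (n : ℕ) : 0 ≤ B.K n := ENNReal.toReal_nonneg

lemma dat_K (B : Base) (lam : ℝ) (hl : 0 < lam) : (B.dat lam hl).K = B.K := rfl

lemma dat_α (B : Base) (lam : ℝ) (hl : 0 < lam) : (B.dat lam hl).α = B.α := rfl

lemma dat_P (B : Base) (lam : ℝ) (hl : 0 < lam) : (B.dat lam hl).P = disorder B.ν := rfl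

lemma sum_words {M : ℕ} (R : ℕ) (f : ℕ → ℝ) :
    ∑ n ∈ wds M R, ∏ i, f (n i) = (∑ m ∈ Finset.Icc 1 R, f m) ^ M := by
  unfold wds
  rw [Finset.sum_prod_piFinset (Finset.Icc 1 R) (fun _ m => f m)]
  simp

/-- MODULE IMP -/
theorem imp : ImpT := by
  classical
  intro hsys hKmin hKlow hgood hclt hshort hev hcon hprod hgain B
  obtain ⟨hg0, hg⟩ := hgain hclt hshort hev hcon hprod
  obtain ⟨s, c1, l1, hs, hc1, hl1, hgn⟩ := hg B
  obtain ⟨p0, T0, hp0, hgd⟩ := hgood hKmin hKlow B s hs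
  -- the size of lam
  set η : ℝ := min (c1 * p0 / 4) (1 / 4) with hη
  have hη0 : 0 < η := by positivity
  have hη1 : η ≤ c1 * p0 / 4 := min_le_left _ _
  have hη2 : η ≤ 1 / 4 := min_le_right _ _
  set l0 : ℝ := min l1 (min 1 (Real.sqrt (max T0 1))⁻¹) with hl0
  have hmax : (0 : ℝ) < max T0 1 := lt_of_lt_of_le one_pos (le_max_right _ _)
  have hsq : 0 < Real.sqrt (max T0 1) := Real.sqrt_pos.2 hmax
  have hl00 : 0 < l0 := by positivity
  refine ⟨η, l0, hη0, hl00, ?_⟩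
  intro lam hl hlt h hh0 hh2 ⟨R0, hR0⟩
  have hlt1 : lam < l1 := hlt.trans_le (min_le_left _ _)
  have hlt2 : lam < 1 := hlt.trans_le ((min_le_right _ _).trans (min_le_left _ _))
  have hlt3 : lam < (Real.sqrt (max T0 1))⁻¹ :=
    hlt.trans_le ((min_le_right _ _).trans (min_le_right _ _))
  set T : ℝ := lam⁻¹ ^ 2 with hT
  have hTT : T0 ≤ T := by
    have h1 : Real.sqrt (max T0 1) < lam⁻¹ := by
      rw [lt_inv_comm₀ hsq hl]; exact hlt3
    have h2 : max T0 1 < T := by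
      calc max T0 1 = Real.sqrt (max T0 1) ^ 2 := (Real.sq_sqrt hmax.le).symm
        _ < lam⁻¹ ^ 2 := pow_lt_pow_left₀ h1 hsq.le two_ne_zero
    exact (le_max_left _ _).trans h2.le
  have hT1 : 1 ≤ T := by
    have h1 : 1 ≤ lam⁻¹ := (one_le_inv₀ hl).2 hlt2.le
    exact one_le_pow₀ h1
  have hT0 : 0 < T := by linarith
  set M : ℕ := ⌈T ^ B.α⌉₊ with hM
  have hTa : 1 ≤ T ^ B.α := Real.one_le_rpow hT1 B.hα.le
  have hM1 : 1 ≤ M := by
    rw [hM]
    exact Nat.one_le_ceil_iff.2 (by linarith)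
  have hM2 : (M : ℝ) ≤ 2 * T ^ B.α := by
    have := (Nat.ceil_lt_add_one (by linarith : 0 ≤ T ^ B.α)).le
    rw [← hM] at this
    linarith
  have hTl : T ^ B.α * lam ^ (2 * B.α) = 1 := by
    have h1 : T ^ B.α = lam ^ (-(2 * B.α)) := by
      rw [hT, Real.rpow_neg hl.le, Real.rpow_mul hl.le, ← Real.inv_rpow (by positivity)]
      congr 1
      rw [inv_pow]
      norm_cast
    rw [h1, ← Real.rpow_add hl]
    simp
  set R : ℕ := max R0 ⌈3 * T⌉₊ with hR
  have hRT : 3 * T ≤ R := (Nat.le_ceil _).trans (by exact_mod_cast le_max_right _ _)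
  set D := B.dat lam hl with hD
  set A : ℝ := ∑ m ∈ Finset.Icc 1 R, B.K m * ph D h m with hA
  have hA1 : 1 - η * lam ^ (2 * B.α) ≤ A := hR0 R (le_max_left _ _)
  have hlp : 0 < lam ^ (2 * B.α) := Real.rpow_pos_of_pos hl _
  have hlp1 : lam ^ (2 * B.α) ≤ 1 := Real.rpow_le_one hl.le hlt2.le (by have := B.hα; linarith)
  have hphn : ∀ m, 0 ≤ ph D h m := fun m => by
    refine integral_nonneg fun ω => ?_
    refine Real.rpow_nonneg ?_ _
    unfold phi
    have := Real.exp_pos (S (D.w h ω) 0 m)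
    positivity
  have hApow : 1 - 2 * η ≤ A ^ M := by
    have h1 : 1 + (M : ℝ) * (-(η * lam ^ (2 * B.α))) ≤ (1 + -(η * lam ^ (2 * B.α))) ^ M :=
      one_add_mul_le_pow (by nlinarith) M
    have h2 : (1 + -(η * lam ^ (2 * B.α))) ^ M ≤ A ^ M :=
      pow_le_pow_left₀ (by nlinarith) (by linarith) M
    have h3 : (M : ℝ) * (η * lam ^ (2 * B.α)) ≤ 2 * η := by
      calc (M : ℝ) * (η * lam ^ (2 * B.α)) ≤ 2 * T ^ B.α * (η * lam ^ (2 * B.α)) :=
            mul_le_mul_of_nonneg_right hM2 (by positivity)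
        _ = 2 * η * (T ^ B.α * lam ^ (2 * B.α)) := by ring
        _ = 2 * η := by rw [hTl, mul_one]
    linarith
  refine hsys D h hh0 M R hM1 ?_
  -- good words
  set g : Finset (Fin M → ℕ) := (wds M R).filter fun n => ∃ i j, Good T s n i j with hgdef
  have hgp : p0 ≤ ∑ n ∈ g, ∏ i, B.K (n i) := hgd T hTT R hRT M hM g
    (fun n hn h1 => Finset.mem_filter.2 ⟨hn, h1⟩) (Finset.filter_subset _ _)
  have hword : ∀ n ∈ wds M R, (∏ i, B.K (n i)) * ∏ i, ph D h (n i) +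
      (if n ∈ g then (∏ i, B.K (n i)) * c1 else 0) ≤
      (∏ i, D.K (n i)) * ∫ ω, (Bs (D.w h ω) n) ^ gam D.α ∂D.P := by
    intro n hn
    have hKn : 0 ≤ ∏ i, B.K (n i) := Finset.prod_nonneg fun i _ => B.K_nonneg _
    by_cases hng : n ∈ g
    · rw [if_pos hng, ← mul_add]
      exact mul_le_mul_of_nonneg_left
        (hgn lam hl hlt1 h hh0 hh2 M n (Finset.mem_filter.1 hng).2) hKn
    · rw [if_neg hng, add_zero]
      exact mul_le_mul_of_nonneg_left (hg0 D h M n) hKn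
  have hsum := Finset.sum_le_sum hword
  rw [Finset.sum_add_distrib] at hsum
  have e1 : ∑ n ∈ wds M R, (∏ i, B.K (n i)) * ∏ i, ph D h (n i) = A ^ M := by
    rw [hA, ← sum_words]
    refine Finset.sum_congr rfl fun n _ => ?_
    rw [← Finset.prod_mul_distrib]
  have e2 : ∑ n ∈ wds M R, (if n ∈ g then (∏ i, B.K (n i)) * c1 else 0) =
      (∑ n ∈ g, ∏ i, B.K (n i)) * c1 := by
    rw [← Finset.sum_filter, Finset.sum_mul]
    refine Finset.sum_congr ?_ fun _ _ => rfl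
    ext n
    simp only [Finset.mem_filter, hgdef]
    tauto
  rw [e1, e2] at hsum
  have h5 : p0 * c1 ≤ (∑ n ∈ g, ∏ i, B.K (n i)) * c1 := mul_le_mul_of_nonneg_right hgp hc1.le
  have h6 : 0 < c1 * p0 := by positivity
  calc (1 : ℝ) < 1 - 2 * η + p0 * c1 := by nlinarith
    _ ≤ _ := by linarith

end Pool.Agent.J6H63.Cop
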