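import Pool.Agent.Helper764.Cop_strE
import Pool.Agent.Helper764.Cop_int
import Pool.Agent.Helper764.Cop_EF
import Pool.Agent.Helper764.Cop_Fbd
import Pool.Agent.Helper764.Cop_indep
import Pool.Agent.Helper764.Cop_hc
import Pool.Agent.Helper764.Cop_absS

/-!
# Copolymer at a selective interface: statements of the modules

Model: `Pool.Agent.Helper764.CopDefs` (`Cop764.Data`, `phi`, `G`, `Data.f`, `Data.w`, `Data.P`;
proved there: `M_strE.J_strE`, `M_loc.J_loc`, `M_indep.J_indep`, `M_stat.J_stat`, `M_meas.J_meas`,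
`M_EF.J_EF`, `M_Fbd.J_Fbd`, `M_G.J_G`, `M_K.J_K`, `M_hc.J_hc`, `M_absS...` (moments of sums)).

`phi w a b = (1 + exp (w_(a+1) + ... + w_b)) / 2`, `w n = -2 λ (ω n + h)`, `G K w a b` = partition
function of `(a, b]` with renewals at `a` and `b`.

Every module: theorem of the stated type in `Pool/Agent/J6Hxx/Cop/<Name>.lean`, importing this file.
-/

set_option autoImplicit false

open MeasureTheory ProbabilityTheory Filter Topology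
open Cop764

namespace Pool.Agent.J6H63.Cop

/-- the exponent `γ = 1 / (1 + α)` -/
noncomputable def gam (α : ℝ) : ℝ := (1 + α)⁻¹

/-- `γ`-th moment of the weight of one excursion of length `n` -/
noncomputable def ph (D : Data) (h : ℝ) (n : ℕ) : ℝ :=
  ∫ ω, (phi (D.w h ω) 0 n) ^ gam D.α ∂D.P

/-- the data without `λ`, with `α < 1` -/
structure Base where
  κ : PMF ℕ
  κ0 : κ 0 = 0
  α : ℝ
  cK : ℝ
  hα : 0 < α
  hα1 : α < 1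
  hcK : 0 < cK
  htail : Tendsto (fun n : ℕ => (n : ℝ) ^ (1 + α) * (κ n).toReal) atTop (𝓝 cK)
  ν : Measure ℝ
  hν : IsProbabilityMeasure ν
  mean : ∫ x, x ∂ν = 0
  var : ∫ x, x ^ 2 ∂ν = 1
  expm : ∀ t : ℝ, Integrable (fun x => Real.exp (t * x)) ν

attribute [instance] Base.hν

/-- `K n = κ n` as a real number -/
noncomputable def Base.K (B : Base) (n : ℕ) : ℝ := (B.κ n).toReal

/-- the data with `λ = lam` -/
noncomputable def Base.dat (B : Base) (lam : ℝ) (hl : 0 < lam) : Data :=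
  ⟨B.κ, B.κ0, B.α, B.cK, B.hα, B.hcK, B.htail, B.ν, B.hν, B.mean, B.var, B.expm, lam, hl⟩

/-! ## part 1: the criterion -/

/-- MODULE FRAC. If the free energy vanishes, the `γ`-th moments grow at most like `ℓ ^ 2`.

Proof. Write `T = lG h 0 ℓ = log G`, `β = log (2 / c0) + (1 + α) log ℓ`, `s = γ (T - β)`.
`J_strE` with `q = exp (-k)` (`k : ℕ`), divided by `1 + α`, gives `E (s - k)_+ ≤ exp (-k)`.
Pointwise, for `A : ℕ`: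
`exp s ≤ e + e ^ 2 ∑_(k < A) exp k * (s - k)_+ + exp (-α A) exp ((1 + α) s)`
(if `s < 1` clear; if `1 ≤ s ≤ A` use the summand `k = ⌊s⌋ - 1`; if `s > A` the last term).
`exp ((1 + α) s) = exp (T - β) ≤ G / (...) ≤ G` (as `β ≥ 0`), and
`E G ≤ E F ≤ exp (C1 ℓ)` (`J_EF`, `G ≤ F` since `phi w a a = 1`). Take `A = ⌈C1 ℓ / α⌉`:
`E exp s ≤ e + e ^ 2 A + 1 ≤ C ℓ`, and `G ^ γ = exp (γ β) exp s`, `exp (γ β) = (2 / c0) ^ γ * ℓ`. -/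
def FracT : Prop := ∀ (D : Data) (h : ℝ), 0 ≤ h → D.f h ≤ 0 → ∃ (C : ℝ) (n0 : ℕ), ∀ ℓ : ℕ, n0 ≤ ℓ →
  ∫ ω, (G D.K (D.w h ω) 0 ℓ) ^ gam D.α ∂D.P ≤ C * (ℓ : ℝ) ^ 2

/-- MODULE GROW. Supercritical renewal inequalities grow faster than `C N ^ 2`.

Proof. Otherwise `u N ≤ C N ^ 2` for `N ≥ n0`. By continuity choose `0 < x < 1` with
`a = ∑ c w * x ^ len w > 1`. `U_R = ∑_(N ≤ R) u N x ^ N` is bounded and increasing, and
`U_R ≥ 1 + ∑_w c w x ^ len w * U_(R - len w)` (for `R ≥ max len`); in the limit `U ≥ 1 + a U`,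
a contradiction to `U ≥ 0`. -/
def GrowT : Prop := ∀ (W : Type) (s : Finset W) (len : W → ℕ) (c : W → ℝ), (∀ w ∈ s, 1 ≤ len w) →
  (∀ w ∈ s, 0 ≤ c w) → 1 < ∑ w ∈ s, c w → ∀ u : ℕ → ℝ, u 0 = 1 → (∀ n, 0 ≤ u n) →
  (∀ N, 1 ≤ N → ∑ w ∈ s with len w ≤ N, c w * u (N - len w) ≤ u N) →
  ∀ (C : ℝ) (n0 : ℕ), ∃ N, n0 ≤ N ∧ C * (N : ℝ) ^ 2 < u N

/-- a system of words: random weights `B w` of the block `(0, len w]` with nonnegative coefficients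
of sum at most one, which is dominated by the partition function -/
structure WSys (D : Data) (h : ℝ) where
  W : Type
  s : Finset W
  len : W → ℕ
  wt : W → ℝ
  B : W → (ℕ → ℝ) → ℝ
  one_le : ∀ w ∈ s, 1 ≤ len w
  wt_nonneg : ∀ w ∈ s, 0 ≤ wt w
  wt_sum : ∑ w ∈ s, wt w ≤ 1
  meas : ∀ w ∈ s, Measurable (B w)
  nonneg : ∀ w ∈ s, ∀ ω, 0 ≤ B w ω
  loc : ∀ w ∈ s, ∀ ω ω' : ℕ → ℝ, (∀ n ∈ Finset.Ioc 0 (len w), ω n = ω' n) → B w ω = B w ω'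
  int : ∀ w ∈ s, Integrable (fun ω => B w ω ^ gam D.α) D.P
  dom : ∀ (ω : ℕ → ℝ) (N : ℕ), 1 ≤ N →
    ∑ w ∈ s with len w ≤ N, wt w * B w ω * G D.K (D.w h ω) (len w) N ≤ G D.K (D.w h ω) 0 N

/-- MODULE CRIT. Localization criterion.

Proof. Suppose `D.f h ≤ 0`; `u N = E (G 0 N) ^ γ` (integrable as `x ^ γ ≤ 1 + x` and
`0 ≤ G 0 N ≤ F 0 N` integrable, `J_EF`) satisfies `u N ≤ C N ^ 2` (`FracT`). Jensen: for `wt ≥ 0`,
`∑ wt ≤ 1`, `x ≥ 0`: `∑ wt x ^ γ ≤ (∑ wt x) ^ γ`. So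
`(G 0 N) ^ γ ≥ ∑ wt w * (B w) ^ γ * (G (len w) N) ^ γ`; the two factors are independent
(`J_indep`, coordinates in `(0, len w]` and `(len w, N]`; `J_loc`) and `G (len w) N` is
`G 0 (N - len w)` of the shifted disorder (`J_loc`, `J_stat`). So `GrowT` applies with
`c w = wt w * E (B w) ^ γ`. -/
def CritT : Prop := FracT → GrowT → ∀ (D : Data) (h : ℝ), 0 ≤ h → ∀ X : WSys D h,
  1 < ∑ w ∈ X.s, X.wt w * ∫ ω, X.B w ω ^ gam D.α ∂D.P → 0 < D.f h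

/-! ## part 2: words of `M` excursions -/

/-- starting point of the `i`-th excursion of the word `n` -/
def st {M : ℕ} (n : Fin M → ℕ) (i : Fin M) : ℕ := ∑ j ∈ Finset.Iio i, n j

/-- weight of a word: product over its excursions -/
noncomputable def Bw (w : ℕ → ℝ) {M : ℕ} (n : Fin M → ℕ) : ℝ := ∏ i, phi w (st n i) (st n i + n i)

/-- weight of a word, averaged over all the orders of its excursions -/
noncomputable def Bs (w : ℕ → ℝ) {M : ℕ} (n : Fin M → ℕ) : ℝ :=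
  (M.factorial : ℝ)⁻¹ * ∑ σ : Equiv.Perm (Fin M), Bw w (n ∘ σ)

/-- the words of `M` excursions with lengths in `[1, R]` -/
def wds (M R : ℕ) : Finset (Fin M → ℕ) := Fintype.piFinset fun _ => Finset.Icc 1 R

/-- MODULE WORD. Proof. First with `Bw` instead of `Bs`: induction on `M` with `G_eq` (split off the
first excursion, `Fin.consEquiv`/`Fin.cons`; the shifted weights `fun m => w (m + k)`, `J_loc`; all
terms are nonnegative, words which are too long are dropped). Then for every `σ` reindex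
`n ↦ n ∘ σ` (the set of words, the product of the `K (n i)` and the length are invariant) and
average over `σ`. -/
def WordT : Prop := ∀ (K w : ℕ → ℝ), (∀ n, 0 ≤ K n) → ∀ M R N : ℕ,
  ∑ n ∈ (wds M R) with ∑ i, n i ≤ N, (∏ i, K (n i)) * Bs w n * G K w (∑ i, n i) N ≤ G K w 0 N

/-- MODULE PROD. Independence of the excursions of a word. Proof. Induction on `M` (first excursion,
`J_indep`, `J_stat`, `J_loc`), or `iIndepFun`. `phi ^ γ ≤ 1 + phi` is integrable. -/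
def ProdT : Prop := ∀ (D : Data) (h : ℝ) (M : ℕ) (n : Fin M → ℕ),
  Integrable (fun ω => (Bw (D.w h ω) n) ^ gam D.α) D.P ∧
    ∫ ω, (Bw (D.w h ω) n) ^ gam D.α ∂D.P = ∏ i, ph D h (n i)

/-- MODULE SYS. Proof. `CritT` for the system `W = Fin M → ℕ`, `s = wds M R`, `len n = ∑ n i`,
`wt n = ∏ K (n i)`, `B n ω = Bs (D.w h ω) n`. `(∑ x_σ) ^ γ ≤ ∑ x_σ ^ γ` for the integrability;
`∑ wt = (∑_(m ≤ R) K m) ^ M ≤ 1` (`Finset.prod_univ_sum`). -/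
def SysT : Prop := FracT → GrowT → CritT → WordT → ProdT → ∀ (D : Data) (h : ℝ), 0 ≤ h →
  ∀ M R : ℕ, 1 ≤ M →
  1 < ∑ n ∈ wds M R, (∏ i, D.K (n i)) * ∫ ω, (Bs (D.w h ω) n) ^ gam D.α ∂D.P → 0 < D.f h

/-! ## part 3: sums of the gap law (`0 < α < 1`) -/

/-- MODULE KMIN. Proof. `K m ≤ C m ^ (-(1 + α))` for all `m ≥ 1`;
`∑_(m ≤ T) m ^ (-α) ≤ C T ^ (1 - α)`, `∑_(m > T) m ^ (-(1 + α)) ≤ C T ^ (-α)`. -/
def KminT : Prop := ∀ B : Base, ∃ C : ℝ, 0 < C ∧ ∀ T : ℝ, 1 ≤ T → ∀ R : ℕ,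
  ∑ m ∈ Finset.Icc 1 R, B.K m * min ((m : ℝ) / T) 1 ≤ C * T ^ (-B.α)

/-- MODULE KLOW. Proof. `K m ≥ (cK / 2) m ^ (-(1 + α))` for large `m`, and there are at least
`(b - a) T - 1` integers between `a T` and `b T`. -/
def KlowT : Prop := ∀ (B : Base) (a b : ℝ), 0 < a → a < b → ∃ c T0 : ℝ, 0 < c ∧ ∀ T : ℝ, T0 ≤ T →
  ∀ R : ℕ, b * T ≤ R → c * T ^ (-B.α) ≤
    ∑ m ∈ (Finset.Icc 1 R).filter (fun m : ℕ => a * T ≤ (m : ℝ) ∧ (m : ℝ) ≤ b * T), B.K m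

/-- two long excursions, of lengths in `[T, 1.1 T]` and `[2 T, 2.1 T]`, the sum of all the others is
at most `s T` -/
def Good (T s : ℝ) {M : ℕ} (n : Fin M → ℕ) (i j : Fin M) : Prop :=
  i ≠ j ∧ T ≤ n i ∧ (n i : ℝ) ≤ 11 / 10 * T ∧ 2 * T ≤ n j ∧ (n j : ℝ) ≤ 21 / 10 * T ∧
    ∑ k ∈ Finset.univ \ {i, j}, (n k : ℝ) ≤ s * T

/-- MODULE GOOD. Good words of `M = ⌈T ^ α⌉` excursions have probability at least `p0`.

Proof. We may suppose `s ≤ 1 / 2`. Then `(i, j)` is determined by `n` (the others are `≤ T / 2`), so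
the sum over the good words is the sum over the ordered pairs `i ≠ j` of the sums over `n` with
`Good T s n i j`. For a pair, with `short m := 1 ≤ m ≤ ε T`, as `1{Σ ≤ s T} ≥ 1 - Σ / (s T)`, the sum
is at least (expand with `Finset.prod_univ_sum`)
`a b (P ^ (M - 2) - (M - 2) m_s P ^ (M - 3) / (s T))`, with `a, b ≥ c T ^ (-α)` (`KlowT`),
`P = ∑_short K ≥ 1 - C (ε T) ^ (-α)`, `m_s = ∑_short m K m ≤ C (ε T) ^ (1 - α)` (`KminT`). Choose `ε`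
with `(M - 2) m_s / (s T) ≤ 2 C ε ^ (1 - α) / s ≤ 1 / 4`; then for large `T` (`P ≥ 1 / 2`) the sum is
`≥ a b P ^ M / 4`, `P ^ M ≥ exp (-4 C ε ^ (-α))`, and there are `M (M - 1) ≥ T ^ (2 α) / 2` pairs. -/
def GoodT : Prop := KminT → KlowT → ∀ (B : Base) (s : ℝ), 0 < s → ∃ p0 T0 : ℝ, 0 < p0 ∧
  ∀ T : ℝ, T0 ≤ T → ∀ R : ℕ, 3 * T ≤ R → ∀ M : ℕ, M = ⌈T ^ B.α⌉₊ →
    ∀ g : Finset (Fin M → ℕ), (∀ n ∈ wds M R, (∃ i j, Good T s n i j) → n ∈ g) → g ⊆ wds M R →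
      p0 ≤ ∑ n ∈ g, ∏ i, B.K (n i)

/-! ## part 4: the disorder -/

/-- MODULE CLT. Proof. `ProbabilityTheory.tendstoInDistribution_inv_sqrt_mul_sum` (Mathlib) and the
portmanteau theorem for the open interval `(a, b)`; the Gaussian measure of `(a, b)` is positive.
Shift by `k` with `J_stat`. -/
def CltT : Prop := ∀ (B : Base) (a b : ℝ), a < b → ∃ (p : ℝ) (n1 : ℕ), 0 < p ∧ ∀ n : ℕ, n1 ≤ n →
  ∀ k : ℕ, p ≤ (disorder B.ν).real {ω | a * √(n : ℝ) < ∑ i ∈ Finset.Ioc k (k + n), ω i ∧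
    ∑ i ∈ Finset.Ioc k (k + n), ω i < b * √(n : ℝ)}

/-- MODULE SHORT. Excursions of small total length have a weight near one.

Proof. With `u_k = S w (a k) (a k + n k)`: `phi = (1 + e ^ u) / 2 = e ^ (u/2) cosh (u/2)` is between
`e ^ (u/2)` and `e ^ (u/2 + u²/8)`. `E (∑ u_k)² = 4 λ² ℓ + (2 λ h ℓ)² ≤ 4 s + 16 s²`
(`ℓ = ∑ n_k ≤ s λ^-2`, disjoint intervals, independence) and
`E ∑ u_k² = ∑ (4 λ² n_k + 4 λ² h² n_k²) ≤ 4 s + 16 s²`; Chebyshev and Markov. -/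
def ShortT : Prop := ∀ (B : Base) (ε : ℝ), 0 < ε → ∃ s : ℝ, 0 < s ∧
  ∀ (lam : ℝ) (hl : 0 < lam), ∀ h : ℝ, 0 ≤ h → h ≤ 2 * lam →
    ∀ (ι : Type) (A : Finset ι) (a n : ι → ℕ),
      (∀ k ∈ A, ∀ l ∈ A, k ≠ l → Disjoint (Finset.Ioc (a k) (a k + n k))
        (Finset.Ioc (a l) (a l + n l))) →
      ∑ k ∈ A, (n k : ℝ) ≤ s * lam⁻¹ ^ 2 →
      1 - ε ≤ (disorder B.ν).real {ω |
        9 / 10 ≤ ∏ k ∈ A, phi ((B.dat lam hl).w h ω) (a k) (a k + n k) ∧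
        ∏ k ∈ A, phi ((B.dat lam hl).w h ω) (a k) (a k + n k) ≤ 11 / 10 ∧
        |lam * ∑ k ∈ A, ∑ i ∈ Finset.Ioc (a k) (a k + n k), ω i| ≤ 1 / 10}

/-- MODULE EV. With probability at least `p1` the two orders of the long excursions have very
different weights.

Proof. `T = λ^-2`, `a = st n i`, `ℓ` = total length of the excursions between `i` and `j`. Segments
`S1 = (a, a + n i]`, `S2` of length `ℓ`, `S3 = up to a + n j` (length in `[0.85 T, 1.1 T]` if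
`s ≤ 0.05`), `S4` of length `ℓ`, `S5` of length `n i`. `Bw n` = short ones * phi (S1) *
phi (S3 S4 S5), `Bw (n ∘ swap i j)` = short ones * phi (S1 S2 S3) * phi (S5). Put `x = λ ∑ ω`. On
the event `x (S1) ≥ 10`, `-9 ≤ x (S3) ≤ -7`, `-0.95 ≤ x (S5) ≤ 0` (`CltT` with `(10, 11)`,
`(-8.4, -7.7)`, `(-0.9, 0)`; `λ √n` is in `[0.92, 1.05]`; independent), `|x (S2)|, |x (S4)| ≤ 0.1`
and short products in `[0.9, 1.1]` (`ShortT`, exceptional probability at most `p / 8` each, so `s` is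
chosen after `p`): `phi ≥ 1/2` always, `phi (S3 S4 S5) ≥ exp (2 * 6.9 - 8.4) / 2` (the drift
`2 λ h n j` is at most `4 * 2.1`), so `Bw n ≥ 20`; `phi (S1 S2 S3) ≤ 1`,
`phi (S5) ≤ (1 + exp 1.9) / 2 ≤ 4`, so `Bw (n ∘ swap i j) ≤ 8`. -/
def EvT : Prop := CltT → ShortT → ∀ B : Base, ∃ s p1 l0 : ℝ, 0 < s ∧ 0 < p1 ∧ 0 < l0 ∧
  ∀ (lam : ℝ) (hl : 0 < lam), lam < l0 → ∀ h : ℝ, 0 ≤ h → h ≤ 2 * lam →
    ∀ (M : ℕ) (n : Fin M → ℕ) (i j : Fin M), i < j → Good (lam⁻¹ ^ 2) s n i j →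
      p1 ≤ (disorder B.ν).real {ω | 20 ≤ Bw ((B.dat lam hl).w h ω) n ∧
        Bw ((B.dat lam hl).w h ω) (n ∘ Equiv.swap i j) ≤ 8}

/-- MODULE CON. Strict concavity of `x ^ γ`. Proof. `g x y = ((x + y) / 2) ^ γ - (x ^ γ + y ^ γ) / 2`
is nonincreasing in `y` for `y ≤ x` and nondecreasing in `x` for `x ≥ y`, so the minimum is
`g 20 8 > 0` (or: slopes). -/
def ConT : Prop := ∀ g : ℝ, 0 < g → g < 1 → ∃ c : ℝ, 0 < c ∧ ∀ x y : ℝ, 20 ≤ x → 0 ≤ y → y ≤ 8 →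
  (x ^ g + y ^ g) / 2 + c ≤ ((x + y) / 2) ^ g

/-- MODULE GAIN. Proof. (1) `(M!⁻¹ ∑_σ x_σ) ^ γ ≥ M!⁻¹ ∑_σ x_σ ^ γ`, `ProdT`, and
`∏ ph (n (σ i)) = ∏ ph (n i)`. (2) Let `n` be good with `i, j`. Average over `σ` of
`x_σ = Bw (n ∘ σ)` and of `y_σ = Bw (n ∘ swap i j ∘ σ)` are equal, so `Bs = M!⁻¹ ∑ (x_σ + y_σ) / 2`
and `Bs ^ γ ≥ M!⁻¹ ∑ ((x_σ + y_σ) / 2) ^ γ`. For every `σ` the word `n ∘ σ` is good with
`i' = σ⁻¹ i, j' = σ⁻¹ j`, and `n ∘ swap i j ∘ σ = (n ∘ σ) ∘ swap i' j'`. If `i' < j'` apply `EvT` to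
`n ∘ σ`: `E ((x + y) / 2) ^ γ ≥ E (x ^ γ + y ^ γ) / 2 + c2 p1` by `ConT` on the event and concavity
outside. If `j' < i'` the word `n' = (n ∘ σ) ∘ swap i' j'` is good with the indices `j' < i'`
exchanged (`n' j' = n i`, `n' i' = n j`): apply `EvT` to `n'` (roles of `x`, `y` exchanged). -/
def GainT : Prop := CltT → ShortT → EvT → ConT → ProdT →
  (∀ (D : Data) (h : ℝ) (M : ℕ) (n : Fin M → ℕ),
    ∏ i, ph D h (n i) ≤ ∫ ω, (Bs (D.w h ω) n) ^ gam D.α ∂D.P) ∧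
  ∀ B : Base, ∃ s c1 l0 : ℝ, 0 < s ∧ 0 < c1 ∧ 0 < l0 ∧
  ∀ (lam : ℝ) (hl : 0 < lam), lam < l0 → ∀ h : ℝ, 0 ≤ h → h ≤ 2 * lam →
    ∀ (M : ℕ) (n : Fin M → ℕ), (∃ i j, Good (lam⁻¹ ^ 2) s n i j) →
      ∏ i, ph (B.dat lam hl) h (n i) + c1 ≤
        ∫ ω, (Bs ((B.dat lam hl).w h ω) n) ^ gam B.α ∂(disorder B.ν)

/-! ## part 5: the results -/

/-- MODULE IMP. The improved criterion. Proof. `T = λ^-2`, `M = ⌈T ^ α⌉ ≤ 2 λ^(-2α)`, `R` large,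
`A = ∑_(m ≤ R) K m ph m ≥ 1 - η λ^(2α)`, so `A ^ M ≥ 1 - 2 η` (Bernoulli, if `A ≤ 1`). By `GainT`
and `GoodT`, `∑_wds (∏ K) E Bs ^ γ ≥ A ^ M + c1 p0 > 1` if `η < c1 p0 / 2`; apply `SysT`. -/
def ImpT : Prop := (∀ (D : Data) (h : ℝ), 0 ≤ h → ∀ M R : ℕ, 1 ≤ M →
    1 < ∑ n ∈ wds M R, (∏ i, D.K (n i)) * ∫ ω, (Bs (D.w h ω) n) ^ gam D.α ∂D.P → 0 < D.f h) →
  KminT → KlowT → GoodT → CltT → ShortT → EvT → ConT → ProdT → GainT →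
  ∀ B : Base, ∃ η l0 : ℝ, 0 < η ∧ 0 < l0 ∧
  ∀ (lam : ℝ) (hl : 0 < lam), lam < l0 → ∀ h : ℝ, 0 ≤ h → h ≤ 2 * lam →
    (∃ R0 : ℕ, ∀ R, R0 ≤ R → 1 - η * lam ^ (2 * B.α) ≤
      ∑ m ∈ Finset.Icc 1 R, B.K m * ph (B.dat lam hl) h m) → 0 < (B.dat lam hl).f h

/-- MODULE PLAIN. The product criterion holds beyond the slope `1 / (1 + α)`.

Proof. `M(t) = ∫ exp (t x) dν`, `h* = log M(-2 λ γ) / (2 λ γ)`; `h* ≥ 0`, `h* / λ → γ` as `λ → 0`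
(`log M(t) / t² → 1/2`), so `0 ≤ h - h* ≤ 2 δ λ` for `h = (γ + δ) λ` and small `λ`. Put
`u = -2 λ ∑_(k ≤ m) (ω_k + h*)`: `E exp (γ u) = 1`. Pointwise
`((1 + e ^ u) / 2) ^ γ ≥ (1 + e ^ (γ u)) / 2` (concavity), and `≥ ... + c` if `u ≤ -1` (compactness of
`[0, e^-1]`, strict concavity). So `ph h* m ≥ 1`, and `ph h* m ≥ 1 + c p` for `λ^-2 ≤ m ≤ 2 λ^-2`
(`P (u ≤ -1) ≥ p` by `CltT` with `(1/2, 1)`, as `h* ≥ 0`). As
`(1 + e ^ (u - v)) / 2 ≥ e ^ (-v) (1 + e ^ u) / 2` for `v = 2 λ (h - h*) m ≤ 4 δ λ² m`,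
`ph h m ≥ exp (-4 δ λ² m) ph h* m ≥ 1 - min (4 δ λ² m) 1 + 1{λ^-2 ≤ m ≤ 2 λ^-2} c p exp (-8 δ)`.
Sum: `∑_(m ≤ R) K m ≥ 1 - (tail)`, loss `≤ C δ ^ α λ^(2α)` (`KminT` with `T = 1 / (4 δ λ²)`), gain
`≥ c' λ^(2α)` (`KlowT`); choose `δ` small, then `R` large. -/
def PlainT : Prop := KminT → KlowT → CltT → ∀ B : Base, ∃ δ c l0 : ℝ, 0 < δ ∧ 0 < c ∧ 0 < l0 ∧
  ∀ (lam : ℝ) (hl : 0 < lam), lam < l0 → ∃ R0 : ℕ, ∀ R, R0 ≤ R → 1 + c * lam ^ (2 * B.α) ≤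
    ∑ m ∈ Finset.Icc 1 R, B.K m * ph (B.dat lam hl) ((gam B.α + δ) * lam) m

/-- MODULE STAB. Proof. For `h ≥ (γ + δ) λ` and small `λ`: `E exp (γ u) = M(-2 λ γ) ^ m *
exp (-2 λ γ h m) ≤ 1`, so `ph h m ≤ E (1 + e ^ (γ u)) ≤ 2`, and
`ph (h + δ' λ) m ≥ exp (-2 δ' λ² m) ph h m`; so the difference of the sums is at most
`2 ∑ K m min (2 δ' λ² m) 1 ≤ C δ' ^ α λ^(2α)` (`KminT`). -/
def StabT : Prop := KminT → ∀ (B : Base) (δ η : ℝ), 0 < δ → 0 < η → ∃ δ' l0 : ℝ, 0 < δ' ∧ 0 < l0 ∧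
  ∀ (lam : ℝ) (hl : 0 < lam), lam < l0 → ∀ h : ℝ, (gam B.α + δ) * lam ≤ h → ∀ R : ℕ,
    ∑ m ∈ Finset.Icc 1 R, B.K m * ph (B.dat lam hl) h m - η * lam ^ (2 * B.α) ≤
      ∑ m ∈ Finset.Icc 1 R, B.K m * ph (B.dat lam hl) (h + δ' * lam) m

/-- FINAL (helper63). The critical point exceeds, by at least `δ λ`, both `λ / (1 + α)` and every
`h ≤ 3 λ / 2` which satisfies the product criterion. -/
def FinalT : Prop := ∀ B : Base, ∃ δ l0 : ℝ, 0 < δ ∧ 0 < l0 ∧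
  ∀ (lam : ℝ) (hl : 0 < lam), lam < l0 → ∀ hc : ℝ,
    (∀ h, 0 ≤ h → (0 < (B.dat lam hl).f h ↔ h < hc)) →
    (gam B.α + δ) * lam < hc ∧
    ∀ h : ℝ, 0 ≤ h → h ≤ 3 / 2 * lam → 1 ≤ ∑' m : ℕ, B.K m * ph (B.dat lam hl) h m →
      h + δ * lam < hc

end Pool.Agent.J6H63.Cop
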