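import Pool.Agent.J6H63.Cop.Fin

/-!
# From `FinalE` to the theorem
-/

set_option autoImplicit false

open MeasureTheory ProbabilityTheory Filter Topology
open Cop764

namespace Pool.Agent.J6H63.Cop

/-- the product (renewal) criterion sum -/
noncomputable def prodSum (κ : PMF ℕ) (ν : Measure ℝ) [IsProbabilityMeasure ν] (α lam h : ℝ) :
    ENNReal :=
  ∑' m : ℕ, ENNReal.ofReal ((κ m).toReal *
    ∫ ω, ((1 + Real.exp (-2 * lam * ∑ n ∈ Finset.Icc 1 m, (ω n + h))) / 2) ^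
      (1 / (1 + α)) ∂(disorder ν))

lemma prodSum_eq (B : Base) (lam : ℝ) (hl : 0 < lam) (h : ℝ) :
    prodSum B.κ B.ν B.α lam h = ∑' m : ℕ, ENNReal.ofReal (B.K m * ph (B.dat lam hl) h m) := by
  unfold prodSum
  refine tsum_congr fun m => ?_
  unfold Base.K ph
  congr 2
  refine integral_congr_ae (Eventually.of_forall fun ω => ?_)
  show ((1 + Real.exp (-2 * lam * ∑ n ∈ Finset.Icc 1 m, (ω n + h))) / 2) ^ (1 / (1 + B.α)) =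
    (phi ((B.dat lam hl).w h ω) 0 m) ^ gam B.α
  unfold phi S Data.w gam
  rw [one_div, Finset.mul_sum]
  rfl

/-- the theorem for a `Base` -/
theorem top (hfin : FinalE) (B : Base) : ∃ δ l0 : ℝ, 0 < δ ∧ 0 < l0 ∧
    (∀ lam : ℝ, 0 < lam → lam < l0 → ∃ hc : ℝ, 0 < hc ∧
      (∀ h, 0 ≤ h → Tendsto (feN B.κ B.ν lam h) atTop (𝓝 (freeEnergy B.κ B.ν lam h))) ∧
      (∀ h, 0 ≤ h → (0 < freeEnergy B.κ B.ν lam h ↔ h < hc)) ∧
      (1 / (1 + B.α) + δ) * lam < hc ∧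
      ∀ h, 0 ≤ h → h ≤ 3 / 2 * lam → 1 ≤ prodSum B.κ B.ν B.α lam h → h + δ * lam < hc) ∧
    ∀ (hc : ℝ → ℝ) (m : ℝ),
      (∀ lam, 0 < lam → ∀ h, 0 ≤ h → (0 < freeEnergy B.κ B.ν lam h ↔ h < hc lam)) →
      Tendsto (fun lam => hc lam / lam) (𝓝[>] 0) (𝓝 m) →
      1 / (1 + B.α) + δ ≤ m ∧
      ∀ ρ : ℝ, 0 ≤ ρ → ρ ≤ 3 / 2 → (∃ᶠ lam in 𝓝[>] (0 : ℝ), 1 ≤ prodSum B.κ B.ν B.α lam (ρ * lam)) →
        ρ + δ ≤ m := by
  obtain ⟨δ, l0, hδ, hl0, H⟩ := hfin B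
  refine ⟨δ, l0, hδ, hl0, fun lam hl hlt => ?_, fun hc m hhc hm => ⟨?_, fun ρ hρ0 hρ1 hfr => ?_⟩⟩
  · obtain ⟨hc, hc0, hiff, -⟩ := M_hc.J_hc (B.dat lam hl)
    obtain ⟨h1, h2⟩ := H lam hl hlt hc hiff
    refine ⟨hc, hc0, fun h hh => (M_fe.J_fe (B.dat lam hl) h hh).1, hiff, ?_, ?_⟩
    · rw [one_div]; exact h1
    · intro h hh hh2 hs
      rw [prodSum_eq B lam hl] at hs
      exact h2 h hh hh2 hs
  · refine ge_of_tendsto hm ?_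
    have hev : ∀ᶠ lam in 𝓝[>] (0 : ℝ), lam ∈ Set.Ioo (0 : ℝ) l0 := Ioo_mem_nhdsGT hl0
    filter_upwards [hev] with lam ⟨hl, hlt⟩
    have h1 := (H lam hl hlt (hc lam) (hhc lam hl)).1
    rw [le_div_iff₀ hl, one_div]
    exact h1.le
  · have hev : ∀ᶠ lam in 𝓝[>] (0 : ℝ), lam ∈ Set.Ioo (0 : ℝ) l0 := Ioo_mem_nhdsGT hl0
    refine ge_of_tendsto_of_frequently hm ?_
    refine (hfr.and_eventually hev).mono fun lam ⟨hs, hl, hlt⟩ => ?_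
    rw [prodSum_eq B lam hl] at hs
    have h1 := (H lam hl hlt (hc lam) (hhc lam hl)).2 (ρ * lam) (by positivity)
      (by nlinarith) hs
    rw [le_div_iff₀ hl]
    linarith

end Pool.Agent.J6H63.Cop
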